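import Mathlib
import Pool.Agent.N388.EFW.Fam

set_option autoImplicit false

/-!
# The uniform Harbourne-Hirschowitz conjecture for 11, 15 and 27 points outside a short window

Let `n = 11`, `15` or `27`. For every multiplicity `m` there is a nonempty Zariski-open set of `n`-tuples of
points of the complex projective plane such that the space of forms of degree `d` vanishing to order `m` at
the `n` points has the expected dimension in every degree `d` divisible by three with
`(√n + 3) (d - √n m) < 3 (√n - 3)` or `√n (2 m + 1) ≤ 2 d + 3` and, for `n = 11` and `n = 15`, in every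
degree which is not divisible by three.

The remaining degrees are those divisible by three with
`3 (√n - 3) / (√n + 3) ≤ d - √n m < (√n - 3) / 2`; this is the interval from `0.1503…` to `0.1583…` for
`n = 11` and from `0.3810…` to `0.4364…` for `n = 15`.
-/

namespace Pool.Agent.Results.MP_d03834_ag.ElevenFifteenTwentySevenSharper

theorem result (n : ℕ) (hn : n = 11 ∨ n = 15 ∨ n = 27) (m : ℕ) :
    ∃ F : MvPolynomial (Fin n × Fin 2) ℂ, F ≠ 0 ∧
      ∀ P : Fin n → Fin 2 → ℂ,
        MvPolynomial.eval (fun ij : Fin n × Fin 2 => P ij.1 ij.2) F ≠ 0 →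
        ∀ d : ℕ,
          ((¬ 3 ∣ d ∧ n ≠ 27) ∨
            (3 ∣ d ∧ (√(n : ℝ) + 3) * (d - √(n : ℝ) * m) < 3 * (√(n : ℝ) - 3)) ∨
            (3 ∣ d ∧ √(n : ℝ) * (2 * m + 1) ≤ 2 * d + 3)) →
          Module.finrank ℂ
            ↥(MvPolynomial.homogeneousSubmodule (Fin 3) ℂ d ⊓
              Submodule.restrictScalars ℂ
                (⨅ i : Fin n,
                  (Ideal.span
                    ({MvPolynomial.X 0 - MvPolynomial.C (P i 0) * MvPolynomial.X 2,
                      MvPolynomial.X 1 - MvPolynomial.C (P i 1) * MvPolynomial.X 2} :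
                      Set (MvPolynomial (Fin 3) ℂ))) ^ m))
          = Nat.choose (d + 2) 2 - n * Nat.choose (m + 1) 2 := by
  obtain ⟨F, hF, hF'⟩ := N388.EFW.uniform3 hn m
  refine ⟨F.map (algebraMap ℚ ℂ), H932R3.map_ne_zero_of hF, fun P hP d hd => ?_⟩
  rw [MvPolynomial.eval_map] at hP
  have h1 := hF' P hP d hd
  unfold H932R3.ExpDim at h1
  simpa using h1

end Pool.Agent.Results.MP_d03834_ag.ElevenFifteenTwentySevenSharper
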