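import Mathlib
import Pool.Agent.N54.MS.One

set_option autoImplicit false

/-!
# All numbers of general points at once, along almost all sequences of multiplicities with a real parameter

Let `D` be any set of natural numbers with at least `N ^ (1 - ε)` members in `(N, 2 N]` for every `ε > 0` and all large `N`
(`Many`), for instance all integers or all primes. Let `g` be any real sequence with `g(t + 1) - g(t) ≥ t ^ (ρ - 1)` for large `t`, where
`0 < ρ ≤ 1` (for instance `t`, `t ²`, `√t`, `t log t`, the `t`-th prime, `2 ^ t`, `t !`), and `c` any real sequence. Then for almost all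
real `ξ` with `ξ g(t) + c(t) ≥ 1` for large `t` the following holds for the multiplicities `m = ⌊ξ g(t) + c(t)⌋`, `t ∈ D`. The same is true
for almost all `ξ > 1` and `m = ⌊ξ ^ g(t) + c(t)⌋`, `g(t)` increasing integers, and for almost all members of all families of twice
continuously differentiable functions whose derivatives are separated (`Spread`). The sequences can grow arbitrarily fast.

(1) For at least the proportion `1 / 10000 ^ 22` of the members `t` of `D` in `(N, 2 N]`, `N` large: for EVERY number `n ≥ 10` of points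
and EVERY degree `d` the space of the forms of degree `d` with `n` general points of multiplicity `m` has the expected dimension.

(2) For every single `n ≥ 10` this holds in all degrees for all but at most the proportion `bad n + δ` of the members `t` of `D` in
`(N, 2 N]`; `bad n < 1`, `bad n = 0` for `n ≥ 37`, `n = 13`, `n = 21` and the squares, `bad 10 < 0.163`, `bad 11 < 0.053`.

Proof. The plane systems are those of helper141 (`Pool.Agent.N141.SG`): a multiplicity `m` is good for all numbers of points if the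
numbers `m √r` lie in certain arcs modulo one for 20 radicands `r`. A second moment argument over the parameter (after helper668's
one-dimensional metric theorem) shows that for almost all `ξ` the exponential sums of `γ x(t)`, `x(t) = ξ g(t) + c(t)`, over the members
of `D` in `(N, 2 N]` are at most `N ^ (1 - η)` for every algebraic number `γ ≠ 0` (`Pool.Agent.N54.MS`), and the square roots of the
radicands are linearly independent over `ℚ`.
-/

namespace Pool.Agent.Results.MP_d03834_ag.MetricMultiplicities

open MvPolynomial Filter MeasureTheory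

/-- For general points `P 1, …, P n` (outside the hypersurface `F = 0` of the space of all
configurations) the space of the forms of degree `d` which vanish to order at least `m` at all the
points has the expected dimension, for every degree `d`. -/
def AllDegrees (n m : ℕ) : Prop :=
  ∃ F : MvPolynomial (Fin n × Fin 2) ℂ, F ≠ 0 ∧
    ∀ P : Fin n → Fin 2 → ℂ,
      MvPolynomial.eval (fun ij : Fin n × Fin 2 => P ij.1 ij.2) F ≠ 0 →
      ∀ d : ℕ,
        Module.finrank ℂ
          ↥(MvPolynomial.homogeneousSubmodule (Fin 3) ℂ d ⊓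
            Submodule.restrictScalars ℂ
              (⨅ i : Fin n,
                (Ideal.span
                  ({MvPolynomial.X 0 - MvPolynomial.C (P i 0) * MvPolynomial.X 2,
                    MvPolynomial.X 1 - MvPolynomial.C (P i 1) * MvPolynomial.X 2} :
                    Set (MvPolynomial (Fin 3) ℂ))) ^ m))
        = Nat.choose (d + 2) 2 - n * Nat.choose (m + 1) 2

/-- The conjecture holds for the multiplicity `m ≥ 1`: for every number `n ≥ 10` of points and every
degree. -/
def Holds (m : ℕ) : Prop := 1 ≤ m ∧ ∀ n : ℕ, 10 ≤ n → AllDegrees n m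

open Classical in
/-- The bound for the proportion of the bad multiplicities for `n` points. -/
noncomputable def bad (n : ℕ) : ℝ :=
  if 37 ≤ n ∨ n = 13 ∨ n = 21 ∨ IsSquare n then 0
  else if n = 11 ∨ n = 15 then (√(n : ℝ) - 3) / 6
  else (min (√(n : ℝ) - 3) (2 / 3 + 9 / (4 * √(n : ℝ))) +
    min (√(n : ℝ) - 3) (2 / 3 + 1 / (4 * √(n : ℝ)))) / 2

/-- The derivatives of the consecutive functions `F t` are separated on `[u, v]` and their second derivatives increase. -/
def Spread (ρ u v : ℝ) (F : ℕ → ℝ → ℝ) : Prop :=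
  (∀ t, ContDiff ℝ 2 (F t)) ∧ ∃ t₀ : ℕ, ∀ t, t₀ ≤ t → ∀ x ∈ Set.Icc u v,
    (t : ℝ) ^ (ρ - 1) ≤ deriv (F (t + 1)) x - deriv (F t) x ∧
      deriv (deriv (F t)) x ≤ deriv (deriv (F (t + 1))) x

/-- The number of the members `t` of `D` with `N < t ≤ 2 N` and `p t`. -/
noncomputable def count (D : Set ℕ) (p : ℕ → Prop) (N : ℕ) : ℝ :=
  ({t : ℕ | N < t ∧ t ≤ 2 * N ∧ t ∈ D ∧ p t}.ncard : ℝ)

/-- For every `ε > 0` and all large `N` the set `D` has at least `N ^ (1 - ε)` members `t` with `N < t ≤ 2 N`. -/
def Many (D : Set ℕ) : Prop :=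
  ∀ ε : ℝ, 0 < ε → ∀ᶠ N : ℕ in atTop, (N : ℝ) ^ (1 - ε) ≤ count D (fun _ => True) N

/-- If the numbers `x t` are at least `1` for all large `t`, then the multiplicity `⌊x t⌋` is good for all numbers of points and all degrees
for at least the proportion `1 / 10000 ^ 22` of the members `t` of `D` in `(N, 2 N]`, and for every `n ≥ 10` it is good for `n` points
and all degrees for all but at most the proportion `bad n + δ` of them. -/
def Along (D : Set ℕ) (x : ℕ → ℝ) : Prop :=
  (∀ᶠ t : ℕ in atTop, 1 ≤ x t) →
    (∀ᶠ N : ℕ in atTop, 1 / 10000 ^ 22 * count D (fun _ => True) N ≤ count D (fun t => Holds ⌊x t⌋₊) N) ∧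
    ∀ n : ℕ, 10 ≤ n → ∀ δ : ℝ, 0 < δ → ∀ᶠ N : ℕ in atTop,
      count D (fun t => ¬ AllDegrees n ⌊x t⌋₊) N ≤ (bad n + δ) * count D (fun _ => True) N

theorem allDegrees_of {n m : ℕ} (h : Pool.Agent.N141.SG.Ex n m) : AllDegrees n m := by
  obtain ⟨F, hF, hF'⟩ := h
  refine ⟨F.map (algebraMap ℚ ℂ), Pool.Agent.H932R3.map_ne_zero_of hF, fun P hP d => ?_⟩
  rw [MvPolynomial.eval_map] at hP
  have h1 := hF' P hP d
  unfold Pool.Agent.H932R3.ExpDim at h1
  rw [Finset.sum_const, Finset.card_univ, Fintype.card_fin, smul_eq_mul] at h1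
  exact h1

theorem holds_of {m : ℕ} (hm : 1 ≤ m) (h : Pool.Agent.N141.SG.Tgt (m : ℕ)) : Holds m :=
  ⟨hm, fun _ hn => allDegrees_of (Pool.Agent.N141.SG.every h hm hn)⟩

theorem along_of {D : Set ℕ} {x : ℕ → ℝ} (h : Pool.Agent.N54.MS.Gen D x) : Along D x := by
  intro hx
  refine ⟨?_, fun n hn δ hδ => ?_⟩
  · filter_upwards [Pool.Agent.N54.MS.tgt_cnt h hx] with N hN
    exact hN.trans (Pool.Agent.N54.MS.cnt_mono D (fun t ht => holds_of ht.1 ht.2) N)
  · filter_upwards [Pool.Agent.N54.MS.one_cnt hn h hx hδ] with N hN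
    exact (Pool.Agent.N54.MS.cnt_mono D (fun t ht h1 => ht (allDegrees_of h1)) N).trans hN

/-- **Main result.** For every set `D` with many members and almost all members `x` of the three kinds of families of sequences,
`Along D x` holds. The sets of all integers and of all primes have many members. -/
theorem result :
    (∀ D : Set ℕ, Many D → ∀ ρ : ℝ, 0 < ρ → ρ ≤ 1 →
      (∀ (u v : ℝ) (F : ℕ → ℝ → ℝ), Spread ρ u v F →
        ∀ᵐ ξ : ℝ, ξ ∈ Set.Ioc u v → Along D (fun t => F t ξ)) ∧
      (∀ g c : ℕ → ℝ, (∀ᶠ t : ℕ in atTop, (t : ℝ) ^ (ρ - 1) ≤ g (t + 1) - g t) →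
        ∀ᵐ ξ : ℝ, Along D (fun t => ξ * g t + c t)) ∧
      (∀ (g : ℕ → ℕ) (c : ℕ → ℝ), StrictMono g →
        ∀ᵐ ξ : ℝ, 1 < ξ → Along D (fun t => ξ ^ g t + c t))) ∧
    Many Set.univ ∧ Many {p : ℕ | p.Prime} ∧
    (∀ n : ℕ, 10 ≤ n → bad n < 1) ∧
    (bad 10 < 0.163 ∧ bad 11 < 0.053 ∧ bad 12 < 0.465 ∧ bad 14 < 0.738 ∧ bad 15 < 0.146) := by
  refine ⟨fun D hD ρ hρ hρ1 => Pool.Agent.N54.MS.three1 hD hρ hρ1 (Along D) fun x hx => along_of hx,
    Pool.Agent.N54.MS.many_univ, Pool.Agent.N54.MS.many_primes, fun n hn =>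
    Pool.Agent.N141.SG.badU_lt hn, Pool.Agent.N141.SG.badU_vals⟩

end Pool.Agent.Results.MP_d03834_ag.MetricMultiplicities
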