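import Mathlib
import Pool.Agent.N141.SG.Deg2

set_option autoImplicit false

/-!
# The uniform Harbourne-Hirschowitz conjecture for a positive proportion of the degrees

There is a `K₀` such that in every interval `(M, M + K]` of length `K ≥ K₀` at least `1.4` per cent of
the degrees `d` have the following property: for EVERY number `n ≥ 10` of general points of the plane and
EVERY multiplicity `m ≥ 1` the space of the forms of degree `d` which vanish to order at least `m` at all
the points has the expected dimension.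
-/

namespace Pool.Agent.Results.MP_d03834_ag.PositiveProportionOfDegrees

open MvPolynomial

/-- For general points `P 1, …, P n` (outside the hypersurface `F = 0` of the space of all
configurations) the space of the forms of degree `d` which vanish to order at least `m` at all the
points has the expected dimension. -/
def Expected (n m d : ℕ) : Prop :=
  ∃ F : MvPolynomial (Fin n × Fin 2) ℂ, F ≠ 0 ∧
    ∀ P : Fin n → Fin 2 → ℂ,
      MvPolynomial.eval (fun ij : Fin n × Fin 2 => P ij.1 ij.2) F ≠ 0 →
        Module.finrank ℂ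
          ↥(MvPolynomial.homogeneousSubmodule (Fin 3) ℂ d ⊓
            Submodule.restrictScalars ℂ
              (⨅ i : Fin n,
                (Ideal.span
                  ({MvPolynomial.X 0 - MvPolynomial.C (P i 0) * MvPolynomial.X 2,
                    MvPolynomial.X 1 - MvPolynomial.C (P i 1) * MvPolynomial.X 2} :
                    Set (MvPolynomial (Fin 3) ℂ))) ^ m))
        = Nat.choose (d + 2) 2 - n * Nat.choose (m + 1) 2

/-- The conjecture holds for the degree `d`: for every number `n ≥ 10` of points and every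
multiplicity. -/
def Holds (d : ℕ) : Prop := ∀ n : ℕ, 10 ≤ n → ∀ m : ℕ, 1 ≤ m → Expected n m d

theorem expected_of {n m d : ℕ} (h : ∃ F : MvPolynomial (Fin n × Fin 2) ℚ, F ≠ 0 ∧
    ∀ P : Fin n → Fin 2 → ℂ, MvPolynomial.aeval (fun ij : Fin n × Fin 2 => P ij.1 ij.2) F ≠ 0 →
      Pool.Agent.H932R3.ExpDim ℂ (fun _ => m) P d) : Expected n m d := by
  obtain ⟨F, hF, hF'⟩ := h
  refine ⟨F.map (algebraMap ℚ ℂ), Pool.Agent.H932R3.map_ne_zero_of hF, fun P hP => ?_⟩
  rw [MvPolynomial.eval_map] at hP
  have h1 := hF' P hP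
  unfold Pool.Agent.H932R3.ExpDim at h1
  rw [Finset.sum_const, Finset.card_univ, Fintype.card_fin, smul_eq_mul] at h1
  exact h1

/-- counting in subsets -/
theorem ncard_le {s : Finset ℕ} {p q : ℕ → Prop} (h : ∀ n ∈ s, p n → q n) :
    ({n : ℕ | n ∈ s ∧ p n}.ncard : ℝ) ≤ ({n : ℕ | n ∈ s ∧ q n}.ncard : ℝ) := by
  have h1 : {n : ℕ | n ∈ s ∧ p n} ⊆ {n : ℕ | n ∈ s ∧ q n} := fun n hn => ⟨hn.1, h n hn.1 hn.2⟩
  exact_mod_cast Set.ncard_le_ncard h1 ((Finset.finite_toSet s).subset fun n hn => hn.1)

/-- **The uniform Harbourne-Hirschowitz conjecture for a positive proportion of the degrees.** -/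
theorem result : ∃ K₀ : ℕ, ∀ K : ℕ, K₀ ≤ K → ∀ M : ℕ,
    14 / 1000 * (K : ℝ) ≤ ({d : ℕ | d ∈ Finset.Ioc M (M + K) ∧ Holds d}.ncard : ℝ) := by
  obtain ⟨K₀, h⟩ := Pool.Agent.N141.SG.dtgt_long
  exact ⟨K₀, fun K hK M => (h K hK M).trans (ncard_le fun d _ hd n hn m hm =>
    expected_of (Pool.Agent.N141.SG.every_deg hd hn hm))⟩

end Pool.Agent.Results.MP_d03834_ag.PositiveProportionOfDegrees
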